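import Mathlib
import Pool.Agent.R492.Ladder.Space
import Pool.Agent.R492.Ladder.Lists

/-!
# A Menger space in which Bob wins `PONAG` but not the Menger game
-/

set_option autoImplicit false

namespace Pool.Agent.Results.MP_4977a6_gt.PonagNotMenger

open Set Topology TopologicalSpace

/-- `𝒰` is an open cover of `X`. -/
def OpenCover {X : Type} [TopologicalSpace X] (𝒰 : Set (Set X)) : Prop :=
  (∀ U ∈ 𝒰, IsOpen U) ∧ ⋃₀ 𝒰 = univ

/-- `X` is Menger. -/
def Menger (X : Type) [TopologicalSpace X] : Prop :=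
  ∀ 𝒰 : ℕ → Set (Set X), (∀ n, OpenCover (𝒰 n)) →
    ∃ F : ℕ → Set (Set X), (∀ n, F n ⊆ 𝒰 n ∧ (F n).Finite) ∧ ⋃₀ (⋃ n, F n) = univ

/-- The list `[a 0, …, a n]`. -/
def upto {α : Type} (a : ℕ → α) (n : ℕ) : List α := (List.range (n + 1)).map a

/-- Bob has a winning strategy in the Menger game: a function `σ` of the list `[𝒰 0, …, 𝒰 n]` of the
moves made so far by Alice, such that, whatever open covers Alice plays, all the answers of `σ` are legal
(finite subsets of the cover just played) and together cover `X`. -/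
def BobWinsMenger (X : Type) [TopologicalSpace X] : Prop :=
  ∃ σ : List (Set (Set X)) → Set (Set X), ∀ 𝒰 : ℕ → Set (Set X), (∀ n, OpenCover (𝒰 n)) →
    (∀ n, σ (upto 𝒰 n) ⊆ 𝒰 n ∧ (σ (upto 𝒰 n)).Finite) ∧ ⋃₀ (⋃ n, σ (upto 𝒰 n)) = univ

/-- A partial open neighbourhood assignment `{V x : x ∈ Y}`. -/
structure Pona (X : Type) [TopologicalSpace X] where
  /-- the domain -/
  Y : Set X
  /-- the neighbourhoods -/
  V : Y → Set X
  isOpen : ∀ x, IsOpen (V x)
  mem : ∀ x : Y, x.1 ∈ V x

/-- `V_D = ⋃_{x ∈ D} V x`, for `D ⊆ Y`. -/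
def Pona.cov {X : Type} [TopologicalSpace X] (a : Pona X) (D : Set X) : Set X :=
  {z | ∃ x : a.Y, x.1 ∈ D ∧ z ∈ a.V x}

/-- `D` is closed and discrete in `X`. -/
def ClosedDiscrete {X : Type} [TopologicalSpace X] (D : Set X) : Prop :=
  IsClosed D ∧ DiscreteTopology D

/-- The part of `X` which is not covered by Bob's answers before round `n`, when Alice plays `a` and Bob
follows `τ`. -/
def uncovered {X : Type} [TopologicalSpace X] (τ : List (Pona X) → Set X) (a : ℕ → Pona X) (n : ℕ) :
    Set X := {z | ∀ k < n, z ∉ (a k).cov (τ (upto a k))}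

/-- Bob has a winning strategy in `PONAG(X)`: a function `τ` of the list `[a 0, …, a n]` of the moves made
so far by Alice such that, whenever Alice's moves are legal against `τ` (the domain of `a n` is contained
in the uncovered part and the neighbourhoods cover it), Bob's answers are legal (closed discrete subsets
of the domain) and the chosen neighbourhoods cover `X`. -/
def BobWinsPonag (X : Type) [TopologicalSpace X] : Prop :=
  ∃ τ : List (Pona X) → Set X, ∀ a : ℕ → Pona X,
    (∀ n, (a n).Y ⊆ uncovered τ a n ∧ uncovered τ a n ⊆ (a n).cov (a n).Y) →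
    (∀ n, τ (upto a n) ⊆ (a n).Y ∧ ClosedDiscrete (τ (upto a n))) ∧
      ⋃ n, (a n).cov (τ (upto a n)) = univ

open Pool.Agent.R492.Ladder

variable {W : Type} [LinearOrder W] (D : Data W)

theorem menger_sp : Menger (Sp D) := by
  intro 𝒰 h𝒰
  have h1 : ∀ n (x : Sp D), ∃ U ∈ 𝒰 n, x ∈ U := by
    intro n x
    have : x ∈ ⋃₀ 𝒰 n := by rw [(h𝒰 n).2]; exact mem_univ _
    exact this
  choose U hU1 hU2 using h1
  obtain ⟨A, hA, hcov⟩ := lindelof D (fun x => ⋂₀ (range fun n => U n x))
    (fun x => isOpen_sInter_countable D _ (countable_range _) (by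
      rintro _ ⟨n, rfl⟩
      exact (h𝒰 n).1 _ (hU1 n x)))
    (fun x => by
      rintro _ ⟨n, rfl⟩
      exact hU2 n x)
  have hne : A.Nonempty := by
    obtain ⟨x, hx, -⟩ := hcov (ofFin D ∅)
    exact ⟨x, hx⟩
  obtain ⟨e, he⟩ := hA.exists_eq_range hne
  refine ⟨fun n => {U n (e n)}, fun n => ⟨?_, finite_singleton _⟩, ?_⟩
  · rw [singleton_subset_iff]
    exact hU1 n (e n)
  · rw [eq_univ_iff_forall]
    intro y
    obtain ⟨x, hx, hy⟩ := hcov y
    rw [he] at hx
    obtain ⟨n, rfl⟩ := hx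
    exact ⟨U n (e n), mem_iUnion.mpr ⟨n, rfl⟩, hy _ ⟨n, rfl⟩⟩

theorem exists_answer (a : Pona (Sp D)) : ∃ A : Set (Sp D), a.cov a.Y = univ →
    (A ⊆ a.Y ∧ A.Countable ∧ a.cov A = univ) := by
  by_cases h : a.cov a.Y = univ
  · have h1 : ∀ z, ∃ x : a.Y, z ∈ a.V x := by
      intro z
      have : z ∈ a.cov a.Y := by rw [h]; exact mem_univ _
      obtain ⟨x, -, hx⟩ := this
      exact ⟨x, hx⟩
    choose g hg using h1
    obtain ⟨A, hA, hcov⟩ := lindelof D (fun z => a.V (g z)) (fun z => a.isOpen _) hg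
    refine ⟨(fun z => (g z).1) '' A, fun _ => ⟨?_, hA.image _, ?_⟩⟩
    · rintro _ ⟨z, _, rfl⟩
      exact (g z).2
    · rw [eq_univ_iff_forall]
      intro y
      obtain ⟨x, hx, hy⟩ := hcov y
      exact ⟨g x, ⟨x, hx, rfl⟩, hy⟩
  · exact ⟨∅, fun hc => absurd hc h⟩

theorem bobWinsPonag_sp : BobWinsPonag (Sp D) := by
  choose f hf using exists_answer D
  let τ : List (Pona (Sp D)) → Set (Sp D) := fun L =>
    match L with
    | [a] => f a
    | _ => ∅
  have hτ1 : ∀ a, τ [a] = f a := fun a => rfl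
  have hτ2 : ∀ L, L.length ≠ 1 → τ L = ∅ := by
    intro L hL
    match L, hL with
    | [], _ => rfl
    | [a], h => simp at h
    | a :: b :: L, _ => rfl
  refine ⟨τ, fun a ha => ?_⟩
  have h0 : τ (upto a 0) = f (a 0) := by
    have : upto a 0 = [a 0] := by simp [upto]
    rw [this]
  have hs : ∀ n, τ (upto a (n + 1)) = ∅ := by
    intro n
    apply hτ2
    simp [upto]
  have hcov0 : (a 0).cov (a 0).Y = univ := by
    rw [eq_univ_iff_forall]
    intro z
    exact (ha 0).2 (by intro k hk; exact absurd hk (Nat.not_lt_zero _))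
  obtain ⟨h1, h2, h3⟩ := hf (a 0) hcov0
  refine ⟨?_, ?_⟩
  · intro n
    cases n with
    | zero =>
      rw [h0]
      exact ⟨h1, isClosed_of_countable D _ h2, discrete_of_countable D _ h2⟩
    | succ n =>
      rw [hs]
      exact ⟨empty_subset _, isClosed_empty, discrete_of_countable D _ countable_empty⟩
  · rw [eq_univ_iff_forall]
    intro z
    refine mem_iUnion.mpr ⟨0, ?_⟩
    rw [h0, h3]
    exact mem_univ _

/-- The cover by the cells of level `α`. -/
def cells (α : W) : Set (Set (Sp D)) := range fun x => cell D x α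

theorem openCover_cells (α : W) : OpenCover (cells D α) := by
  refine ⟨?_, ?_⟩
  · rintro _ ⟨x, rfl⟩
    exact isOpen_cell D x α
  · rw [eq_univ_iff_forall]
    intro x
    exact ⟨_, ⟨x, rfl⟩, mem_cell_self D x α⟩

theorem not_bobWinsMenger_sp (hE : Pool.Agent.H748R3.Stat D.E) : ¬ BobWinsMenger (Sp D) := by
  rintro ⟨σ, hσ⟩
  obtain ⟨α, x, hx⟩ := avoid D hE (fun s => ⋃₀ σ (s.map (cells D))) (by
    intro s α
    have h1 := (hσ (fun k => cells D ((s ++ [α]).getD k α)) (fun n => openCover_cells D _)).1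
      s.length
    have h2 : upto (fun k => cells D ((s ++ [α]).getD k α)) s.length = (s ++ [α]).map (cells D) := by
      conv_rhs => rw [← getD_segment s α α]
      rw [List.map_map]
      rfl
    rw [h2] at h1
    apply trace_sUnion_finite _ _ h1.2
    intro U hU
    have h3 := h1.1 hU
    have h4 : (s ++ [α]).getD s.length α = α := by simp
    rw [h4] at h3
    obtain ⟨z, rfl⟩ := h3
    refine (finite_singleton (z.1 ∩ Iio α)).subset ?_
    rintro _ ⟨y, hy, rfl⟩
    exact hy)
  have h := (hσ (fun n => cells D (α n)) (fun n => openCover_cells D _)).2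
  have hxu : x ∈ ⋃₀ (⋃ n, σ (upto (fun n => cells D (α n)) n)) := by rw [h]; exact mem_univ _
  obtain ⟨U, hU, hxU⟩ := hxu
  obtain ⟨n, hn⟩ := mem_iUnion.mp hU
  apply hx n
  refine ⟨U, ?_, hxU⟩
  rw [List.map_map]
  exact hn

/-- **Disproof of Q1.** There is a Menger space `X` (Hausdorff, with a base of clopen sets) such that Bob
has a winning strategy in `PONAG(X)` but no winning strategy in the Menger game on `X`. -/
theorem result : ∃ (X : Type) (_ : TopologicalSpace X), T2Space X ∧
    IsTopologicalBasis {s : Set X | IsClopen s} ∧ Menger X ∧ BobWinsPonag X ∧ ¬ BobWinsMenger X := by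
  obtain ⟨W, _, D, hE, -⟩ := exists_data
  exact ⟨Sp D, inferInstance, inferInstance, basis_clopen D, menger_sp D, bobWinsPonag_sp D,
    not_bobWinsMenger_sp D hE⟩

end Pool.Agent.Results.MP_4977a6_gt.PonagNotMenger
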